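import Pool.Agent.H467.PT.Spec

set_option autoImplicit false
set_option linter.all false

open Finset
open scoped Classical

namespace Pool.Agent.H467.PT.Rgh

variable {ι : Type} (S : PSys ι)

lemma mem_UU (n : ℕ) (U : Finset ι) : U ∈ S.UU n ↔ S.dg U = n := by
  unfold PSys.UU
  rw [mem_filter, mem_powerset]
  constructor
  · exact fun h => h.2
  · intro h
    refine ⟨fun p hp => ?_, h⟩
    rw [S.mem_le, ← h]
    exact Finset.single_le_sum (f := S.deg) (fun _ _ => Nat.zero_le _) hp

lemma dg_mono {U V : Finset ι} (h : U ⊆ V) : S.dg U ≤ S.dg V :=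
  Finset.sum_le_sum_of_subset h

/-- Splitting a set of primes into the primes of small and of large degree. -/
lemma card_UU_le (L n : ℕ) : (S.UU n).card ≤ ∑ V ∈ (S.le L).powerset,
    ((S.UU (n - S.dg V)).filter (fun U => ∀ p ∈ U, L < S.deg p)).card := by
  rw [Finset.card_eq_sum_card_fiberwise (f := fun U : Finset ι => U.filter (fun p => S.deg p ≤ L))
    (t := (S.le L).powerset)]
  · refine Finset.sum_le_sum fun V hV => ?_
    refine Finset.card_le_card_of_injOn (fun U => U.filter (fun p => L < S.deg p)) ?_ ?_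
    · intro U hU
      rw [Finset.mem_coe, mem_filter, mem_UU] at hU
      rw [Finset.mem_coe, mem_filter, mem_UU]
      constructor
      · have h1 : S.dg (U.filter (fun p => S.deg p ≤ L)) +
            S.dg (U.filter (fun p => ¬ S.deg p ≤ L)) = S.dg U :=
          Finset.sum_filter_add_sum_filter_not U (fun p => S.deg p ≤ L) S.deg
        have h2 : U.filter (fun p => ¬ S.deg p ≤ L) = U.filter (fun p => L < S.deg p) := by
          apply Finset.filter_congr
          intro p hp
          exact not_le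
        rw [h2, hU.2, hU.1] at h1
        change S.dg (U.filter (fun p => L < S.deg p)) = n - S.dg V
        omega
      · intro p hp
        exact (mem_filter.1 hp).2
    · intro U hU U' hU' h
      rw [Finset.mem_coe, mem_filter] at hU hU'
      have h1 : U.filter (fun p => S.deg p ≤ L) = U'.filter (fun p => S.deg p ≤ L) := by
        rw [hU.2, hU'.2]
      ext p
      have h2 : p ∈ U.filter (fun p => L < S.deg p) ↔ p ∈ U'.filter (fun p => L < S.deg p) := by
        simp only at h
        rw [h]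
      have h3 : p ∈ U.filter (fun p => S.deg p ≤ L) ↔ p ∈ U'.filter (fun p => S.deg p ≤ L) := by
        rw [h1]
      rw [mem_filter, mem_filter] at h2 h3
      rcases le_or_gt (S.deg p) L with h4 | h4
      · tauto
      · tauto
  · intro U hU
    rw [Finset.mem_coe, mem_UU] at hU
    rw [Finset.mem_coe, mem_powerset]
    intro p hp
    rw [S.mem_le]
    exact (mem_filter.1 hp).2

/-- The sum of the norms of the small primes. -/
lemma sum_le_eq (q : ℕ) (L : ℕ) : ∑ p ∈ S.le L, (1 / (q : ℝ)) ^ (S.deg p) =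
    ∑ l ∈ Finset.Icc 1 L, ((S.eq l).card : ℝ) / (q : ℝ) ^ l := by
  rw [← Finset.sum_fiberwise_of_maps_to (g := S.deg) (t := Finset.Icc 1 L)]
  · refine Finset.sum_congr rfl fun l hl => ?_
    rw [mem_Icc] at hl
    have h1 : (S.le L).filter (fun p => S.deg p = l) = S.eq l := by
      unfold PSys.eq
      ext p
      rw [mem_filter, mem_filter, S.mem_le, S.mem_le]
      constructor
      · rintro ⟨_, h⟩
        exact ⟨h.le, h⟩
      · rintro ⟨_, h⟩
        exact ⟨by omega, h⟩
    rw [h1, Finset.sum_congr rfl (g := fun _ => (1 / (q : ℝ)) ^ l)]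
    · rw [Finset.sum_const, nsmul_eq_mul, one_div, inv_pow, div_eq_mul_inv]
    · intro p hp
      unfold PSys.eq at hp
      rw [(mem_filter.1 hp).2]
  · intro p hp
    rw [S.mem_le] at hp
    rw [mem_Icc]
    exact ⟨S.pos p, hp⟩

theorem rgh : S_RGH := by
  intro ι S q C c W n₀ H L hL
  refine ⟨W + S.dg (S.le L), max n₀ (W + S.dg (S.le L)), fun n hn => ?_⟩
  obtain ⟨n1, h1, h2, h3⟩ := H.many n (le_trans (le_max_left _ _) hn)
  have hn1 : S.dg (S.le L) ≤ n1 := by
    have := le_trans (le_max_right _ _) hn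
    omega
  have hq : (0 : ℝ) < q := by
    have := H.q2
    exact_mod_cast (by omega : 0 < q)
  have hL0 : (0 : ℝ) < L := by exact_mod_cast hL
  have hκ : 0 < c / (Real.exp C * L) := div_pos H.c0 (mul_pos (Real.exp_pos _) hL0)
  by_contra hcon
  have hcon' : ∀ V ∈ (S.le L).powerset,
      (((S.UU (n1 - S.dg V)).filter (fun U => ∀ p ∈ U, L < S.deg p)).card : ℝ) <
        c / (Real.exp C * L) * (q : ℝ) ^ (n1 - S.dg V) := by
    intro V hV
    have h4 : S.dg V ≤ S.dg (S.le L) := dg_mono S (mem_powerset.1 hV)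
    by_contra h5
    exact hcon ⟨n1 - S.dg V, by omega, by omega, not_lt.1 h5⟩
  have h6 : ((S.UU n1).card : ℝ) < ∑ V ∈ (S.le L).powerset,
      c / (Real.exp C * L) * (q : ℝ) ^ (n1 - S.dg V) := by
    refine lt_of_le_of_lt ?_ (Finset.sum_lt_sum_of_nonempty ⟨∅, by simp⟩ hcon')
    exact_mod_cast card_UU_le S L n1
  have h7 : ∑ V ∈ (S.le L).powerset, c / (Real.exp C * L) * (q : ℝ) ^ (n1 - S.dg V) =
      c / (Real.exp C * L) * (q : ℝ) ^ n1 * ∏ p ∈ S.le L, (1 + (1 / (q : ℝ)) ^ (S.deg p)) := by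
    rw [Finset.prod_one_add, Finset.mul_sum]
    refine Finset.sum_congr rfl fun V hV => ?_
    have h4 : S.dg V ≤ n1 := le_trans (dg_mono S (mem_powerset.1 hV)) hn1
    rw [Finset.prod_pow_eq_pow_sum, mul_assoc]
    congr 1
    change (q : ℝ) ^ (n1 - S.dg V) = (q : ℝ) ^ n1 * (1 / (q : ℝ)) ^ (S.dg V)
    rw [one_div, inv_pow, pow_sub₀ _ hq.ne' h4]
  have h8 : ∏ p ∈ S.le L, (1 + (1 / (q : ℝ)) ^ (S.deg p)) ≤ L * Real.exp C := by
    calc ∏ p ∈ S.le L, (1 + (1 / (q : ℝ)) ^ (S.deg p))
        ≤ ∏ p ∈ S.le L, Real.exp ((1 / (q : ℝ)) ^ (S.deg p)) := by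
          refine Finset.prod_le_prod (fun p hp => by positivity) fun p hp => ?_
          rw [add_comm]
          exact Real.add_one_le_exp _
      _ = Real.exp (∑ l ∈ Finset.Icc 1 L, ((S.eq l).card : ℝ) / (q : ℝ) ^ l) := by
          rw [← Real.exp_sum, sum_le_eq]
      _ ≤ Real.exp (Real.log L + C) := Real.exp_le_exp.2 (H.mert L hL)
      _ = L * Real.exp C := by rw [Real.exp_add, Real.exp_log hL0]
  have h9 : c / (Real.exp C * L) * (q : ℝ) ^ n1 * ∏ p ∈ S.le L, (1 + (1 / (q : ℝ)) ^ (S.deg p)) ≤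
      c * (q : ℝ) ^ n1 := by
    calc c / (Real.exp C * L) * (q : ℝ) ^ n1 * ∏ p ∈ S.le L, (1 + (1 / (q : ℝ)) ^ (S.deg p))
        ≤ c / (Real.exp C * L) * (q : ℝ) ^ n1 * (L * Real.exp C) :=
          mul_le_mul_of_nonneg_left h8 (by positivity)
      _ = c * (q : ℝ) ^ n1 := by
          have := Real.exp_pos C
          field_simp
  rw [h7] at h6
  exact absurd (lt_of_lt_of_le h6 h9) (not_lt.2 h3)

end Pool.Agent.H467.PT.Rgh
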